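import Pool.Agent.R739.SF.Defs

set_option autoImplicit false

namespace Pool.Agent.R511.SF

open Finset Pool.Agent.H534R3.UDist Pool.Agent.R739.SF

theorem ee_add' (x y : ℝ) : ee (x + y) = ee x * ee y := by
  rw [ee, ee, ee, ← Complex.exp_add]
  congr 1
  push_cast
  ring

theorem ee_int' (n : ℤ) : ee (n : ℝ) = 1 := by
  rw [ee]
  have h := Complex.exp_int_mul_two_pi_mul_I n
  rw [← h]
  congr 1
  push_cast
  ring

theorem lte {r : ℕ} (hr : r.Prime) (A : ℤ) (h : (r : ℤ) ^ 2 ∣ A - 1) (m : ℕ) :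
    emultiplicity (r : ℤ) (A ^ m - 1) = emultiplicity (r : ℤ) (A - 1) + emultiplicity r m := by
  have hA : ¬ (r : ℤ) ∣ A := by
    intro hd
    have h1 : (r : ℤ) ∣ A - 1 := (dvd_pow_self _ two_ne_zero).trans h
    have h2 : (r : ℤ) ∣ 1 := by
      have := dvd_sub hd h1
      simpa using this
    have h3 : r ∣ 1 := by exact_mod_cast h2
    exact hr.one_lt.ne' (Nat.dvd_one.1 h3)
  rcases hr.eq_two_or_odd' with h2 | ho
  · subst h2
    have h3 := Int.two_pow_sub_pow' (x := A) (y := 1) m (by simpa using h) (by simpa using hA)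
    rw [one_pow] at h3
    have h4 : emultiplicity (2 : ℤ) (m : ℤ) = emultiplicity 2 m := by
      have := Int.natCast_emultiplicity 2 m
      simpa using this
    rw [h4] at h3
    exact_mod_cast h3
  · have h3 := Int.emultiplicity_pow_sub_pow hr ho (x := A) (y := 1)
      ((dvd_pow_self _ two_ne_zero).trans h) hA m
    rwa [one_pow] at h3

theorem decomp (a : ℕ) : ∀ b : ℕ, 0 < b →
    ∃ c d k : ℕ, b = c * d ∧ Nat.Coprime c a ∧ d ∣ a ^ k := by
  intro b
  induction b using Nat.strong_induction_on with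
  | _ b ih =>
    intro hb
    by_cases h : Nat.gcd b a = 1
    · exact ⟨b, 1, 0, by simp, h, by simp⟩
    · have hg : 0 < Nat.gcd b a := Nat.gcd_pos_of_pos_left _ hb
      have hg2 : 1 < Nat.gcd b a := by omega
      have h1 : b / Nat.gcd b a < b := Nat.div_lt_self hb hg2
      have h2 : 0 < b / Nat.gcd b a := Nat.div_pos (Nat.gcd_le_left _ hb) hg
      obtain ⟨c, d, k, e1, e2, e3⟩ := ih _ h1 h2
      refine ⟨c, d * Nat.gcd b a, k + 1, ?_, e2, ?_⟩
      · rw [← mul_assoc, ← e1, Nat.div_mul_cancel (Nat.gcd_dvd_left _ _)]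
      · rw [pow_succ]
        exact mul_dvd_mul e3 (Nat.gcd_dvd_right _ _)

theorem sum_mul_range (g : ℕ → ℂ) (L : ℕ) : ∀ r : ℕ,
    ∑ x ∈ range (r * L), g x = ∑ i ∈ range r, ∑ m ∈ range L, g (i * L + m) := by
  intro r
  induction r with
  | zero => simp
  | succ r ih => rw [Nat.succ_mul, Finset.sum_range_add, ih, Finset.sum_range_succ]

theorem block {F : ℕ → ℂ} (hF : ∀ n, ‖F n‖ ≤ 1) (n0 r L : ℕ) (hL : 0 < L) (hr : 0 < r)
    (h : ∀ n, n0 ≤ n → ∑ i ∈ range r, F (n + i * L) = 0) :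
    ∀ N, ‖∑ n ∈ range N, F n‖ ≤ (n0 : ℝ) + r * L := by
  intro N
  induction N using Nat.strong_induction_on with
  | _ N ih =>
    by_cases hN : N ≤ n0 + r * L
    · refine (norm_sum_le _ _).trans ?_
      refine (Finset.sum_le_sum fun n _ => hF n).trans ?_
      rw [Finset.sum_const, card_range, nsmul_eq_mul, mul_one]
      exact_mod_cast hN
    · have hrL : 0 < r * L := Nat.mul_pos hr hL
      obtain ⟨N', hN'⟩ : ∃ N', N = N' + r * L := ⟨N - r * L, by omega⟩
      have h1 : n0 ≤ N' := by omega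
      rw [hN', Finset.sum_range_add, sum_mul_range (fun x => F (N' + x)) L r, Finset.sum_comm]
      have h2 : ∀ m ∈ range L, ∑ i ∈ range r, F (N' + (i * L + m)) = 0 := by
        intro m _
        rw [← h (N' + m) (by omega)]
        refine Finset.sum_congr rfl fun i _ => ?_
        congr 1
        ring
      rw [Finset.sum_congr rfl h2, Finset.sum_const_zero, add_zero]
      exact ih N' (by omega)

theorem vanish {a b r n0 L s : ℕ} {y : ℤ} (hb : 0 < b) (hr : r.Prime)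
    (hW : ∀ n, n0 ≤ n → ∃ W : ℤ, ¬ (r : ℤ) ∣ W ∧
      (a : ℤ) ^ n * ((a : ℤ) ^ L - 1) * y * r = W * (b : ℤ) ^ s)
    (hL : (r : ℤ) ∣ (a : ℤ) ^ L - 1) (n : ℕ) (hn : n0 ≤ n) :
    ∑ i ∈ range r, ee ((a : ℝ) ^ (n + i * L) * ((y : ℝ) / (b : ℝ) ^ s)) = 0 := by
  obtain ⟨W, hW1, hW2⟩ := hW n hn
  have hr0 : (r : ℝ) ≠ 0 := by exact_mod_cast hr.pos.ne'
  have hb0 : (b : ℝ) ^ s ≠ 0 := by positivity
  have hW3 : (a : ℝ) ^ n * ((a : ℝ) ^ L - 1) * ((y : ℝ) / (b : ℝ) ^ s) = (W : ℝ) / r := by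
    have : (a : ℝ) ^ n * ((a : ℝ) ^ L - 1) * y * r = W * (b : ℝ) ^ s := by exact_mod_cast hW2
    field_simp
    linarith
  set ζ := ee ((W : ℝ) / r) with hζ
  have key : ∀ i : ℕ, ee ((a : ℝ) ^ (n + i * L) * ((y : ℝ) / (b : ℝ) ^ s)) =
      ee ((a : ℝ) ^ n * ((y : ℝ) / (b : ℝ) ^ s)) * ζ ^ i := by
    intro i
    induction i with
    | zero => simp
    | succ i ih =>
      have h1 : (r : ℤ) ∣ (a : ℤ) ^ (i * L) - 1 := by
        refine hL.trans ?_
        have := sub_dvd_pow_sub_pow ((a : ℤ) ^ L) 1 i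
        rwa [one_pow, ← pow_mul, mul_comm L i] at this
      obtain ⟨z, hz⟩ := h1
      have hz' : (a : ℝ) ^ (i * L) = 1 + r * z := by
        have : (a : ℤ) ^ (i * L) = 1 + r * z := by linarith
        exact_mod_cast this
      have h2 : (a : ℝ) ^ (n + (i + 1) * L) * ((y : ℝ) / (b : ℝ) ^ s) =
          (a : ℝ) ^ (n + i * L) * ((y : ℝ) / (b : ℝ) ^ s) + ((W : ℝ) / r + ((z * W : ℤ) : ℝ)) := by
        have h3 : (a : ℝ) ^ (n + (i + 1) * L) * ((y : ℝ) / (b : ℝ) ^ s) =
            (a : ℝ) ^ (n + i * L) * ((y : ℝ) / (b : ℝ) ^ s) +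
              (a : ℝ) ^ (i * L) * ((a : ℝ) ^ n * ((a : ℝ) ^ L - 1) * ((y : ℝ) / (b : ℝ) ^ s)) := by
          rw [show n + (i + 1) * L = n + i * L + L by ring, pow_add, pow_add]
          ring
        rw [h3, hW3, hz']
        push_cast
        field_simp
      rw [h2, ee_add', ee_add', ee_int', ih, mul_one, ← hζ, pow_succ, mul_assoc]
  simp only [key]
  rw [← Finset.mul_sum]
  have hζ1 : ζ ≠ 1 := by
    intro h1
    rw [hζ, ee, Complex.exp_eq_one_iff] at h1
    obtain ⟨k, hk⟩ := h1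
    have h2 : (2 * Real.pi * Complex.I : ℂ) ≠ 0 := Complex.two_pi_I_ne_zero
    have h3 : ((W : ℝ) / r : ℝ) = (k : ℝ) := by
      have : (2 * Real.pi * Complex.I : ℂ) * (((W : ℝ) / r : ℝ) : ℂ) =
          (2 * Real.pi * Complex.I : ℂ) * ((k : ℝ) : ℂ) := by
        rw [hk]; push_cast; ring
      exact_mod_cast mul_left_cancel₀ h2 this
    rw [div_eq_iff hr0] at h3
    have h4 : W = k * r := by exact_mod_cast h3
    exact hW1 ⟨k, by rw [h4]; ring⟩
  have hζr : ζ ^ r = 1 := by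
    have h1 : ∀ i : ℕ, ζ ^ i = ee ((i : ℝ) * ((W : ℝ) / r)) := by
      intro i
      induction i with
      | zero =>
        have := ee_int' 0
        simpa using this.symm
      | succ i ih =>
        rw [pow_succ, ih, hζ, ← ee_add']
        congr 1
        push_cast
        ring
    rw [h1 r, mul_div_cancel₀ _ hr0]
    exact ee_int' W
  have h5 : ∑ i ∈ range r, ζ ^ i = 0 := by
    have h6 := geom_sum_mul ζ r
    rw [hζr, sub_self] at h6
    rcases mul_eq_zero.1 h6 with h7 | h7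
    · exact h7
    · exact absurd (sub_eq_zero.1 h7) hζ1
  rw [h5, mul_zero]

theorem KOR : STM_KOR := by
  intro a b r ha hb hr hrb hra
  obtain ⟨c, d, kap, hbcd, hca, hda⟩ := decomp a b (by omega)
  have hd0 : 0 < d := Nat.pos_of_ne_zero (by rintro rfl; simp at hbcd; omega)
  have hc0 : c ≠ 0 := by rintro rfl; simp at hbcd; omega
  have hrd : ¬ r ∣ d := fun h => hra (hr.dvd_of_dvd_pow (h.trans hda))
  obtain ⟨v, c', hrc', hcc'⟩ := Nat.exists_eq_pow_mul_and_not_dvd hc0 r hr.ne_one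
  have := Fact.mk hr
  have hc'0 : c' ≠ 0 := by rintro rfl; simp at hrc'
  have hv : padicValNat r b = v := by
    rw [hbcd, hcc', padicValNat.mul (mul_ne_zero (pow_ne_zero _ hr.ne_zero) hc'0) hd0.ne',
      padicValNat.mul (pow_ne_zero _ hr.ne_zero) hc'0, padicValNat.prime_pow,
      padicValNat.eq_zero_of_not_dvd hrc', padicValNat.eq_zero_of_not_dvd hrd]
    rfl
  have hc'a : Nat.Coprime c' a := Nat.Coprime.coprime_dvd_left ⟨r ^ v, by rw [hcc']; ring⟩ hca
  have hra' : Nat.Coprime a r := ((hr.coprime_iff_not_dvd).2 hra).symm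
  set L0 := Nat.totient (r ^ 2) with hL0
  have hL0p : 0 < L0 := Nat.totient_pos.2 (pow_pos hr.pos 2)
  have hA : ((r : ℤ)) ^ 2 ∣ ((a : ℤ) ^ L0) - 1 := by
    have h1 := Nat.ModEq.pow_totient (Nat.Coprime.pow_right 2 hra')
    have h2 := (Nat.modEq_iff_dvd.1 h1.symm)
    rw [← hL0] at h2
    push_cast at h2
    exact h2
  have hfin : FiniteMultiplicity (r : ℤ) ((a : ℤ) ^ L0 - 1) := by
    rw [Int.finiteMultiplicity_iff]
    refine ⟨by simpa using hr.ne_one, ?_⟩
    have h1 : (1 : ℤ) < (a : ℤ) ^ L0 := one_lt_pow₀ (by exact_mod_cast (by omega : 1 < a)) hL0p.ne'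
    omega
  set c0 := multiplicity (r : ℤ) ((a : ℤ) ^ L0 - 1) with hc0def
  have hc0e : emultiplicity (r : ℤ) ((a : ℤ) ^ L0 - 1) = c0 := hfin.emultiplicity_eq_multiplicity
  have hφ0 : 0 < Nat.totient c' := Nat.totient_pos.2 (Nat.pos_of_ne_zero hc'0)
  have hfin2 : FiniteMultiplicity r (Nat.totient c') :=
    Nat.finiteMultiplicity_iff.2 ⟨hr.ne_one, hφ0⟩
  set f := multiplicity r (Nat.totient c') with hf
  have hfe : emultiplicity r (Nat.totient c') = f := hfin2.emultiplicity_eq_multiplicity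
  refine ⟨kap + r * L0 * Nat.totient c', c0 + f + 1, ?_⟩
  intro s N y hy
  rw [hv] at hy
  -- the valuation of `y`
  have hy0 : y ≠ 0 := by rintro rfl; exact hy (dvd_zero _)
  have hfy : FiniteMultiplicity (r : ℤ) y :=
    Int.finiteMultiplicity_iff.2 ⟨by simpa using hr.ne_one, hy0⟩
  set u := multiplicity (r : ℤ) y with hu
  obtain ⟨y', hy'⟩ : (r : ℤ) ^ u ∣ y := pow_multiplicity_dvd _ _
  have hy'r : ¬ (r : ℤ) ∣ y' := by
    rintro ⟨z, hz⟩
    exact hfy.not_pow_dvd_of_multiplicity_lt (Nat.lt_succ_self _)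
      ⟨z, by rw [← hu, hy', hz, Nat.succ_eq_add_one, pow_succ]; ring⟩
  have hus : u + (c0 + f + 1) < v * s := by
    by_contra hcon
    exact hy ((pow_dvd_pow _ (by omega)).trans ⟨y', hy'⟩)
  -- the choice of the period
  obtain ⟨j, hj⟩ : ∃ j, v * s = u + (c0 + f + j) + 1 := ⟨v * s - u - (c0 + f) - 1, by omega⟩
  set m := Nat.totient c' * c' ^ s * r ^ j with hm
  set L := L0 * m with hLdef
  have hm0 : 0 < m := Nat.mul_pos (Nat.mul_pos hφ0 (pow_pos (Nat.pos_of_ne_zero hc'0) s))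
    (pow_pos hr.pos j)
  have hLp : 0 < L := Nat.mul_pos hL0p hm0
  have hem : emultiplicity r m = (f + j : ℕ) := by
    have hp : _root_.Prime r := hr.prime
    rw [hm, emultiplicity_mul hp, emultiplicity_mul hp, hfe, emultiplicity_pow hp,
      emultiplicity_eq_zero.2 hrc', emultiplicity_pow_self hr.ne_zero hp.not_isUnit]
    simp
  have hDe : emultiplicity (r : ℤ) ((a : ℤ) ^ L - 1) = (c0 + f + j : ℕ) := by
    rw [hLdef, pow_mul, lte hr _ hA m, hc0e, hem]
    push_cast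
    ring
  obtain ⟨hD1, hD2⟩ := emultiplicity_eq_coe.1 hDe
  have hD3 : ((c' : ℤ)) ^ s ∣ (a : ℤ) ^ L - 1 := by
    have h1 := Nat.ModEq.pow_totient hc'a.symm
    have h2 := (Nat.modEq_iff_dvd.1 h1.symm)
    push_cast at h2
    have h3 := dvd_sub_pow_of_dvd_sub (R := ℤ) (p := c') (a := (a : ℤ) ^ Nat.totient c') (b := 1)
      h2 s
    rw [one_pow] at h3
    refine (pow_dvd_pow _ (Nat.le_succ s)).trans (h3.trans ?_)
    have h4 := sub_dvd_pow_sub_pow (((a : ℤ) ^ Nat.totient c') ^ c' ^ s) 1 (L0 * r ^ j)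
    rw [one_pow, ← pow_mul, ← pow_mul] at h4
    have h5 : Nat.totient c' * c' ^ s * (L0 * r ^ j) = L := by rw [hLdef, hm]; ring
    rw [h5, pow_mul] at h4
    exact h4
  obtain ⟨w, hw⟩ : (r : ℤ) ^ (c0 + f + j) * (c' : ℤ) ^ s ∣ (a : ℤ) ^ L - 1 := by
    refine IsCoprime.mul_dvd ?_ hD1 hD3
    refine IsCoprime.pow ?_
    rw [Nat.isCoprime_iff_coprime]
    exact (hr.coprime_iff_not_dvd).2 hrc'
  have hwr : ¬ (r : ℤ) ∣ w := by
    rintro ⟨z, hz⟩
    exact hD2 ⟨(c' : ℤ) ^ s * z, by rw [hw, hz]; ring⟩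
  have hrp : _root_.Prime (r : ℤ) := Nat.prime_iff_prime_int.1 hr
  have hra'' : ¬ (r : ℤ) ∣ (a : ℤ) := by
    intro h
    exact hra (by exact_mod_cast h)
  have hvan := vanish (a := a) (b := b) (r := r) (n0 := kap * s) (L := L) (s := s) (y := y)
    (by omega) hr (by
      intro n hn
      obtain ⟨q, hq⟩ : (d : ℤ) ^ s ∣ (a : ℤ) ^ n := by
        have h1 : d ^ s ∣ a ^ n := by
          refine (pow_dvd_pow_of_dvd hda s).trans ?_
          rw [← pow_mul]
          exact pow_dvd_pow _ hn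
        exact_mod_cast h1
      have hqr : ¬ (r : ℤ) ∣ q := by
        intro h
        exact hra'' (hrp.dvd_of_dvd_pow (h.trans ⟨(d : ℤ) ^ s, by rw [hq]; ring⟩))
      refine ⟨q * w * y', ?_, ?_⟩
      · intro h
        rcases hrp.dvd_or_dvd h with h | h
        · rcases hrp.dvd_or_dvd h with h | h
          · exact hqr h
          · exact hwr h
        · exact hy'r h
      · have hb' : (b : ℤ) ^ s = (r : ℤ) ^ (v * s) * (c' : ℤ) ^ s * (d : ℤ) ^ s := by
          rw [hbcd, hcc']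
          push_cast
          rw [mul_pow, mul_pow, ← pow_mul]
        rw [hb', hq, hw]
        conv_lhs => rw [hy']
        rw [hj, pow_succ, pow_add]
        ring) (by
      refine (dvd_pow_self _ ?_).trans hD1
      have h1 : 2 ≤ c0 := by
        have := (emultiplicity_eq_coe.1 hc0e).2
        by_contra hlt
        exact this ((pow_dvd_pow _ (by omega)).trans hA)
      omega)
  set F : ℕ → ℂ := fun n => ee ((a : ℝ) ^ (n + 1) * ((y : ℝ) / (b : ℝ) ^ s)) with hFdef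
  have hb1 := block (F := F) (fun n => (norm_ee _).le) (kap * s) r L hLp hr.pos (by
    intro n hn
    have := hvan (n + 1) (by omega)
    rw [← this]
    refine Finset.sum_congr rfl fun i _ => ?_
    simp only [hFdef]
    rw [show n + i * L + 1 = n + 1 + i * L by ring]) N
  have hsum : ∑ n ∈ Ioc 0 N, ee ((a : ℝ) ^ n * ((y : ℝ) / (b : ℝ) ^ s)) = ∑ n ∈ range N, F n := by
    have h1 : Ioc 0 N = Ico (0 + 1) (N + 1) := by
      ext n
      simp only [mem_Ioc, mem_Ico]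
      omega
    rw [h1, ← Finset.sum_Ico_add' (fun n => ee ((a : ℝ) ^ n * ((y : ℝ) / (b : ℝ) ^ s))) 0 N 1,
      Finset.range_eq_Ico]
  rw [hsum]
  refine hb1.trans ?_
  have e1 : s ≤ b ^ s := (Nat.lt_pow_self (by omega)).le
  have e2 : c' ^ s * r ^ j ≤ b ^ s := by
    rw [hbcd, hcc', mul_pow, mul_pow, ← pow_mul]
    calc c' ^ s * r ^ j ≤ c' ^ s * r ^ (v * s) :=
          Nat.mul_le_mul_left _ (Nat.pow_le_pow_right hr.pos (by omega))
      _ = r ^ (v * s) * c' ^ s * 1 := by ring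
      _ ≤ r ^ (v * s) * c' ^ s * d ^ s := Nat.mul_le_mul_left _ (Nat.one_le_pow _ _ hd0)
  have e3 : kap * s + r * L ≤ (kap + r * L0 * Nat.totient c') * b ^ s := by
    rw [hLdef, hm]
    calc kap * s + r * (L0 * (Nat.totient c' * c' ^ s * r ^ j))
        = kap * s + r * L0 * Nat.totient c' * (c' ^ s * r ^ j) := by ring
      _ ≤ kap * b ^ s + r * L0 * Nat.totient c' * b ^ s :=
          Nat.add_le_add (Nat.mul_le_mul_left _ e1) (Nat.mul_le_mul_left _ e2)
      _ = _ := by ring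
  exact_mod_cast e3

end Pool.Agent.R511.SF

theorem Pool.Agent.R511.SF_KOR : Pool.Agent.R739.SF.STM_KOR := Pool.Agent.R511.SF.KOR
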